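import Mathlib
import Pool.Agent.X83.DM.Stm

/-! Project DM, part LOW: duality, lower bound. -/

set_option autoImplicit false

namespace Pool.Agent.X11.DM

open MeasureTheory Set Filter Topology Real
open Pool.Agent.X83.DM

variable {d : ℕ}

/-- the normalised kernel -/
noncomputable def F (g : Fin d → ℝ → ℝ) (v : Fin d → ℝ) (r : ℝ) : EuclideanSpace ℝ (Fin d) :=
  ‖vec g v r‖⁻¹ • vec g v r

/-- the periodic test function -/
noncomputable def tf (g : Fin d → ℝ → ℝ) (v : Fin d → ℝ) (P t : ℝ) : EuclideanSpace ℝ (Fin d) :=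
  F g v (P * Int.fract (-t / P))

theorem cont_vec {g : Fin d → ℝ → ℝ} (v : Fin d → ℝ) (hg : ∀ i, Continuous (g i)) :
    Continuous (vec g v) := by
  unfold vec
  exact (PiLp.continuous_toLp 2 _).comp (continuous_pi fun i => (hg i).mul continuous_const)

theorem norm_F_le (g : Fin d → ℝ → ℝ) (v : Fin d → ℝ) (r : ℝ) : ‖F g v r‖ ≤ 1 := by
  unfold F
  rw [norm_smul, norm_inv, norm_norm]
  exact inv_mul_le_one

theorem meas_F {g : Fin d → ℝ → ℝ} (v : Fin d → ℝ) (hg : ∀ i, Continuous (g i)) :
    Measurable (F g v) := by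
  have h := (cont_vec v hg).measurable
  unfold F
  exact h.norm.inv.smul h

theorem meas_tf {g : Fin d → ℝ → ℝ} (v : Fin d → ℝ) (hg : ∀ i, Continuous (g i)) (P : ℝ) :
    Measurable (tf g v P) := by
  unfold tf
  refine (meas_F v hg).comp ?_
  exact (measurable_fract.comp ((measurable_neg).div_const P)).const_mul P

theorem locInt_tf {g : Fin d → ℝ → ℝ} (v : Fin d → ℝ) (hg : ∀ i, Continuous (g i)) (P : ℝ) :
    LocallyIntegrable (tf g v P) := by
  refine (locallyIntegrable_const (1 : ℝ)).mono (meas_tf v hg P).aestronglyMeasurable ?_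
  refine Eventually.of_forall fun t => ?_
  exact (norm_F_le g v _).trans (by simp)

theorem tf_shift (g : Fin d → ℝ → ℝ) (v : Fin d → ℝ) {P : ℝ} (hP : 0 < P) (n : ℕ) {r : ℝ}
    (hr : 0 ≤ r) (hr' : r < P) : tf g v P (n * P - r) = F g v r := by
  unfold tf
  congr 1
  have h1 : -(n * P - r) / P = r / P - n := by
    field_simp
    ring
  rw [h1, Int.fract_sub_natCast, Int.fract_eq_self.mpr ⟨div_nonneg hr hP.le, (div_lt_one hP).mpr hr'⟩]
  field_simp

theorem inner_F (g : Fin d → ℝ → ℝ) (v : Fin d → ℝ) (r : ℝ) :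
    inner ℝ (vec g v r) (F g v r) = ‖vec g v r‖ := by
  unfold F
  rw [inner_smul_right, real_inner_self_eq_norm_sq]
  by_cases h : ‖vec g v r‖ = 0
  · rw [h]; simp
  · field_simp

theorem key (g : Fin d → ℝ → ℝ) (v : Fin d → ℝ) (hg : ∀ i, Continuous (g i)) {P : ℝ} (hP : 0 < P)
    (n : ℕ) (hn : 1 ≤ n) :
    2 * (∫ r in (0 : ℝ)..P, ‖vec g v r‖) - ∫ r in (0 : ℝ)..(n * P), ‖vec g v r‖ ≤
      inner ℝ (WithLp.toLp 2 v : EuclideanSpace ℝ (Fin d))
        (WithLp.toLp 2 fun i => ∫ s in (0 : ℝ)..(n * P), g i (n * P - s) * tf g v P s i) := by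
  set t : ℝ := n * P with ht
  have hPt : P ≤ t := by
    rw [ht]
    have : (1 : ℝ) ≤ n := by exact_mod_cast hn
    nlinarith
  have hbd : ∀ s, ‖tf g v P s‖ ≤ 1 := fun s => norm_F_le g v _
  have hcv := cont_vec v hg
  -- interval integrability of the components
  have hint : ∀ i (a b : ℝ), IntervalIntegrable (fun s => g i (t - s) * tf g v P s i) volume a b := by
    intro i a b
    have h1 : IntervalIntegrable (fun s => tf g v P s i) volume a b := by
      have h2 : LocallyIntegrable (fun s => tf g v P s i) := by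
        refine (locallyIntegrable_const (1 : ℝ)).mono ?_ (Eventually.of_forall fun s => ?_)
        · exact (((EuclideanSpace.proj (𝕜 := ℝ) i).continuous.measurable).comp
            (meas_tf v hg P)).aestronglyMeasurable
        · calc ‖tf g v P s i‖ ≤ ‖tf g v P s‖ := PiLp.norm_apply_le _ i
            _ ≤ 1 := hbd s
            _ = ‖(1 : ℝ)‖ := by simp
      exact (h2.integrableOn_isCompact isCompact_uIcc).intervalIntegrable
    have h0 : Continuous fun s => g i (t - s) := (hg i).comp (continuous_const.sub continuous_id)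
    exact h1.continuousOn_mul h0.continuousOn
  have hin : inner ℝ (WithLp.toLp 2 v : EuclideanSpace ℝ (Fin d))
        (WithLp.toLp 2 fun i => ∫ s in (0 : ℝ)..t, g i (t - s) * tf g v P s i) =
      ∫ s in (0 : ℝ)..t, inner ℝ (vec g v (t - s)) (tf g v P s) := by
    simp only [PiLp.inner_apply, vec]
    rw [intervalIntegral.integral_finsetSum]
    · refine Finset.sum_congr rfl fun i _ => ?_
      simp only [RCLike.inner_apply, conj_trivial]
      rw [← intervalIntegral.integral_mul_const]
      refine intervalIntegral.integral_congr fun s _ => ?_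
      ring
    · intro i _
      refine ((hint i 0 t).mul_const (v i)).congr ?_
      intro s _
      simp only [RCLike.inner_apply, conj_trivial]
      ring
  rw [hin]
  have hsub : ∫ s in (0 : ℝ)..t, inner ℝ (vec g v (t - s)) (tf g v P s) =
      ∫ r in (0 : ℝ)..t, inner ℝ (vec g v r) (tf g v P (t - r)) := by
    have := intervalIntegral.integral_comp_sub_left
      (fun r => inner ℝ (vec g v r) (tf g v P (t - r))) (a := 0) (b := t) t
    simp only [sub_sub_cancel, sub_self, sub_zero] at this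
    exact this
  rw [hsub]
  have hq : ∀ a b : ℝ, IntervalIntegrable (fun r => inner ℝ (vec g v r) (tf g v P (t - r)))
      volume a b := by
    intro a b
    have h3 : LocallyIntegrable (fun r => inner ℝ (vec g v r) (tf g v P (t - r))) := by
      refine (hcv.norm.locallyIntegrable).mono ?_ (Eventually.of_forall fun r => ?_)
      · exact (hcv.measurable.inner ((meas_tf v hg P).comp (measurable_const.sub measurable_id))).aestronglyMeasurable
      · rw [norm_norm]
        calc ‖inner ℝ (vec g v r) (tf g v P (t - r))‖ ≤ ‖vec g v r‖ * ‖tf g v P (t - r)‖ :=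
              norm_inner_le_norm _ _
          _ ≤ ‖vec g v r‖ * 1 := by
              exact mul_le_mul_of_nonneg_left (hbd _) (norm_nonneg _)
          _ = _ := mul_one _
    exact (h3.integrableOn_isCompact isCompact_uIcc).intervalIntegrable
  have hn1 : ∀ a b : ℝ, IntervalIntegrable (fun r => ‖vec g v r‖) volume a b :=
    fun a b => hcv.norm.intervalIntegrable a b
  rw [← intervalIntegral.integral_add_adjacent_intervals (hq 0 P) (hq P t),
    ← intervalIntegral.integral_add_adjacent_intervals (hn1 0 P) (hn1 P t)]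
  have e1 : ∫ r in (0 : ℝ)..P, inner ℝ (vec g v r) (tf g v P (t - r)) =
      ∫ r in (0 : ℝ)..P, ‖vec g v r‖ := by
    refine intervalIntegral.integral_congr_ae ?_
    filter_upwards [Measure.ae_ne volume P] with r hr hr2
    rw [uIoc_of_le hP.le] at hr2
    rw [ht, tf_shift g v hP n hr2.1.le (lt_of_le_of_ne hr2.2 hr), inner_F]
  have e2 : -(∫ r in P..t, ‖vec g v r‖) ≤
      ∫ r in P..t, inner ℝ (vec g v r) (tf g v P (t - r)) := by
    rw [← intervalIntegral.integral_neg]
    refine intervalIntegral.integral_mono_on hPt (hn1 P t).neg (hq P t) fun r _ => ?_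
    have h4 := abs_real_inner_le_norm (vec g v r) (tf g v P (t - r))
    have h5 : ‖vec g v r‖ * ‖tf g v P (t - r)‖ ≤ ‖vec g v r‖ * 1 :=
      mul_le_mul_of_nonneg_left (hbd _) (norm_nonneg _)
    have h6 := (abs_le.mp h4).1
    linarith
  rw [e1]
  linarith

theorem norm_le_sum (w : EuclideanSpace ℝ (Fin d)) : ‖w‖ ≤ ∑ i, ‖w i‖ := by
  rw [EuclideanSpace.norm_eq]
  refine Real.sqrt_le_iff.mpr ⟨Finset.sum_nonneg fun i _ => norm_nonneg _, ?_⟩
  rw [pow_two, Finset.sum_mul]
  refine Finset.sum_le_sum fun i hi => ?_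
  rw [pow_two]
  exact mul_le_mul_of_nonneg_left
    (Finset.single_le_sum (f := fun i => ‖w i‖) (fun j _ => norm_nonneg _) hi) (norm_nonneg _)

theorem t : S_LOW := by
  intro hD d a y g c K hc ha hk hG v
  have hgc : ∀ i, Continuous (g i) := fun i =>
    continuous_iff_continuousAt.mpr fun x => ((hk i).dg x).continuousAt
  have hcv := cont_vec v hgc
  -- integrability
  have hI : IntegrableOn (fun s => ‖vec g v s‖) (Ioi 0) := by
    choose M η hη hM hb using fun i => hD (a i) c c (ha i) hc le_rfl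
    have hd : IntegrableOn (fun s : ℝ => ∑ i, M i * exp (-(η i * s)) * |v i|) (Ioi 0) := by
      refine integrable_finsetSum _ fun i _ => ?_
      have h1 := (exp_neg_integrableOn_Ioi 0 (hη i)).const_mul (M i)
      have h2 := h1.mul_const |v i|
      refine h2.congr (Eventually.of_forall fun s => ?_)
      simp only
      ring_nf
    refine hd.mono' hcv.norm.aestronglyMeasurable ?_
    rw [ae_restrict_iff' measurableSet_Ioi]
    refine Eventually.of_forall fun s hs => ?_
    rw [norm_norm]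
    have hs0 : (0 : ℝ) ≤ s := le_of_lt hs
    calc ‖vec g v s‖ ≤ ∑ i, ‖vec g v s i‖ := norm_le_sum _
      _ ≤ _ := by
        refine Finset.sum_le_sum fun i _ => ?_
        have := (hb i c ⟨le_rfl, le_rfl⟩ (y i) (g i) (hk i) s hs0).2
        simp only [vec, norm_mul, Real.norm_eq_abs]
        exact mul_le_mul_of_nonneg_right this (abs_nonneg _)
  -- the inequality for each period
  have main : ∀ P : ℝ, 0 < P → ∀ ε : ℝ, 0 < ε →
      2 * (∫ r in (0 : ℝ)..P, ‖vec g v r‖) - Phi g v ≤
        (K + ε) * ‖(WithLp.toLp 2 v : EuclideanSpace ℝ (Fin d))‖ := by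
    intro P hP ε hε
    have h1 := hG 0 0 (tf g v P) 1 (locInt_tf v hgc P)
      (Eventually.of_forall fun t => norm_F_le g v _) ε hε
    obtain ⟨T0, hT0⟩ := eventually_atTop.mp h1
    obtain ⟨n, hn⟩ := exists_nat_gt (T0 / P)
    have hn' : T0 ≤ ((n + 1 : ℕ) : ℝ) * P := by
      rw [div_lt_iff₀ hP] at hn
      push_cast
      nlinarith
    have h2 := hT0 _ hn'
    have h3 := key g v hgc hP (n + 1) (by omega)
    have h4 : ∫ r in (0 : ℝ)..(((n + 1 : ℕ) : ℝ) * P), ‖vec g v r‖ ≤ Phi g v := by
      unfold Phi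
      rw [intervalIntegral.integral_of_le (by positivity)]
      exact setIntegral_mono_set hI (Eventually.of_forall fun _ => norm_nonneg _)
        (Ioc_subset_Ioi_self.eventuallyLE)
    have h5 := real_inner_le_norm (WithLp.toLp 2 v : EuclideanSpace ℝ (Fin d))
      (WithLp.toLp 2 fun i => ∫ s in (0 : ℝ)..(((n + 1 : ℕ) : ℝ) * P),
        g i (((n + 1 : ℕ) : ℝ) * P - s) * tf g v P s i)
    have h6 : ‖(WithLp.toLp 2 fun i => ∫ s in (0 : ℝ)..(((n + 1 : ℕ) : ℝ) * P),
        g i (((n + 1 : ℕ) : ℝ) * P - s) * tf g v P s i : EuclideanSpace ℝ (Fin d))‖ ≤ K + ε := by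
      simpa using h2
    have h7 := mul_le_mul_of_nonneg_left h6
      (norm_nonneg (WithLp.toLp 2 v : EuclideanSpace ℝ (Fin d)))
    linarith
  -- limits
  have lim : Tendsto (fun P : ℝ => 2 * (∫ r in (0 : ℝ)..P, ‖vec g v r‖) - Phi g v) atTop
      (𝓝 (2 * Phi g v - Phi g v)) :=
    ((intervalIntegral_tendsto_integral_Ioi 0 hI tendsto_id).const_mul 2).sub_const _
  have h8 : ∀ ε : ℝ, 0 < ε → Phi g v ≤
      (K + ε) * ‖(WithLp.toLp 2 v : EuclideanSpace ℝ (Fin d))‖ := by
    intro ε hε
    have := le_of_tendsto lim ((eventually_gt_atTop 0).mono fun P hP => main P hP ε hε)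
    linarith
  refine le_of_forall_pos_le_add fun δ hδ => ?_
  have hv : 0 < ‖(WithLp.toLp 2 v : EuclideanSpace ℝ (Fin d))‖ + 1 := by positivity
  have h9 := h8 (δ / (‖(WithLp.toLp 2 v : EuclideanSpace ℝ (Fin d))‖ + 1)) (by positivity)
  have h10 : δ / (‖(WithLp.toLp 2 v : EuclideanSpace ℝ (Fin d))‖ + 1) *
      ‖(WithLp.toLp 2 v : EuclideanSpace ℝ (Fin d))‖ ≤ δ := by
    rw [div_mul_eq_mul_div, div_le_iff₀ hv]
    nlinarith [norm_nonneg (WithLp.toLp 2 v : EuclideanSpace ℝ (Fin d))]
  nlinarith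

end Pool.Agent.X11.DM
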